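import Pool.Agent.R260.MSA

set_option autoImplicit false

open Polynomial Pool.Agent.R260.MS

namespace Pool.Agent.Results.MP_5f9057_an.DistinctFamily

/-- The simple set `P_j`: its `k`-th member is `1 + x + ... + x^k` for `k ≤ j` and `x^k` for
`k > j`. -/
noncomputable def P (j k : ℕ) : ℝ[X] :=
  if k ≤ j then ∑ i ∈ Finset.range (k + 1), X ^ i else X ^ k

lemma P_simple (j : ℕ) : SimpleSet (P j) := by
  intro k
  unfold P
  split_ifs
  · rw [Finset.sum_range_succ, add_comm]
    rw [degree_add_eq_left_of_degree_lt]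
    · rw [degree_X_pow]
    · rw [degree_X_pow]
      have : ∑ i ∈ Finset.range k, (X:ℝ[X]) ^ i ∈ degreeLT ℝ k := by
        apply Submodule.sum_mem
        intro l hl
        rw [Finset.mem_range] at hl
        rw [mem_degreeLT, degree_X_pow]
        exact_mod_cast hl
      rwa [mem_degreeLT] at this
  · rw [degree_X_pow]

lemma mem_own (i : ℕ) : (fun k => (k.descFactorial (i + 1) : ℝ)) ∈ MSset (P i) := by
  intro n a hf
  have e : ∑ k ∈ Finset.range (n + 1), C (a k * (k.descFactorial (i + 1) : ℝ)) * P i k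
      = X ^ (i + 1) * derivative^[i + 1] (∑ k ∈ Finset.range (n + 1), C (a k) * P i k) := by
    rw [iterate_derivative_sum, Finset.mul_sum]
    apply Finset.sum_congr rfl
    intro k _
    rw [iterate_derivative_C_mul]
    by_cases hk : k ≤ i
    · have h1 : k.descFactorial (i + 1) = 0 := Nat.descFactorial_eq_zero_iff_lt.mpr (by omega)
      have h2 : derivative^[i + 1] (P i k) = 0 := by
        apply iterate_derivative_eq_zero_of_degree_lt
        rw [P_simple i k]
        exact_mod_cast (by omega : k < i + 1)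
      rw [h1, h2]; simp
    · have h3 : P i k = X ^ k := by unfold P; rw [if_neg hk]
      rw [h3, iterate_derivative_X_pow_eq_C_mul, C_mul]
      obtain ⟨l, rfl⟩ : ∃ l, k = i + 1 + l := ⟨k - (i + 1), by omega⟩
      have h4 : i + 1 + l - (i + 1) = l := by omega
      rw [h4, pow_add]; ring
  rw [e]
  exact (hf.iterate_deriv (i + 1)).X_pow_mul (i + 1)

lemma not_rr {f : ℝ[X]} (z : ℂ) (hz : aeval z f = 0) (him : z.im ≠ 0) (hf : f ≠ 0) :
    ¬ RealRooted f := by
  rintro (h | h)
  · exact hf h
  · exact him (h z hz)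

lemma not_mem (i j : ℕ) (hi : 1 ≤ i) (hij : i < j) :
    (fun k => (k.descFactorial (i + 1) : ℝ)) ∉ MSset (P j) := by
  intro hms
  set a : ℕ → ℝ := fun k => if k = i + 1 then 1 else if k = i then -1 else 0 with ha
  have hq1 : P j (i + 1) = ∑ l ∈ Finset.range (i + 2), (X:ℝ[X]) ^ l := by
    unfold P; rw [if_pos (by omega)]
  have hq0 : P j i = ∑ l ∈ Finset.range (i + 1), (X:ℝ[X]) ^ l := by
    unfold P; rw [if_pos (by omega)]
  have hsum : ∀ c : ℕ → ℝ, ∑ k ∈ Finset.range (i + 1 + 1), C (a k * c k) * P j k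
      = C (c (i + 1)) * P j (i + 1) - C (c i) * P j i := by
    intro c
    rw [Finset.sum_range_succ, Finset.sum_range_succ]
    have h0 : ∑ k ∈ Finset.range i, C (a k * c k) * P j k = 0 := by
      apply Finset.sum_eq_zero
      intro k hk
      rw [Finset.mem_range] at hk
      have h1 : k ≠ i + 1 := by omega
      have h2 : k ≠ i := by omega
      simp [ha, h1, h2]
    rw [h0]
    have h3 : a i = -1 := by simp [ha]
    have h4 : a (i + 1) = 1 := by simp [ha]
    rw [h3, h4]
    simp only [one_mul, neg_mul, C_neg]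
    ring
  have h1 := hms (i + 1) a (by
    have h2 := hsum (fun _ => 1)
    simp only [mul_one] at h2
    rw [h2, hq1, hq0, Finset.sum_range_succ _ (i + 1)]
    simp only [C_1, one_mul, add_sub_cancel_left]
    right
    intro z hz
    rw [map_pow, aeval_X] at hz
    rw [eq_zero_of_pow_eq_zero hz]; simp)
  rw [hsum] at h1
  have hd : i.descFactorial (i + 1) = 0 := Nat.descFactorial_eq_zero_iff_lt.mpr (by omega)
  rw [hd] at h1
  simp only [Nat.cast_zero, C_0, zero_mul, sub_zero] at h1
  have hf0 : ((i + 1).descFactorial (i + 1) : ℝ) ≠ 0 := by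
    rw [Nat.descFactorial_self]; positivity
  have hprim := Complex.isPrimitiveRoot_exp (i + 2) (by omega)
  set z : ℂ := Complex.exp (2 * Real.pi * Complex.I / ((i + 2 : ℕ) : ℂ)) with hz
  have hgeom : ∑ l ∈ Finset.range (i + 2), z ^ l = 0 := hprim.geom_sum_eq_zero (by omega)
  have him : z.im ≠ 0 := by
    have e1 : (2 * Real.pi * Complex.I / ((i + 2 : ℕ) : ℂ))
        = ((2 * Real.pi / ((i + 2 : ℕ) : ℝ) : ℝ) : ℂ) * Complex.I := by
      push_cast; ring
    rw [hz, e1, Complex.exp_ofReal_mul_I_im]
    apply ne_of_gt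
    apply Real.sin_pos_of_pos_of_lt_pi
    · positivity
    · have h3 : (3:ℝ) ≤ ((i + 2 : ℕ) : ℝ) := by exact_mod_cast (by omega : 3 ≤ i + 2)
      rw [div_lt_iff₀ (by linarith)]
      have := Real.pi_pos
      nlinarith
  refine not_rr z ?_ him ?_ h1
  · rw [map_mul, hq1, map_sum]
    simp only [map_pow, aeval_X]
    rw [hgeom, mul_zero]
  · rw [mul_ne_zero_iff]
    refine ⟨C_ne_zero.mpr hf0, ?_⟩
    intro h0
    have h5 : (P j (i + 1)).natDegree = i + 1 :=
      natDegree_eq_of_degree_eq_some (P_simple j (i + 1))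
    rw [h0, natDegree_zero] at h5
    omega

lemma two_pow_classical : (fun k => (2:ℝ) ^ k) ∈ MSset (fun k => X ^ k) := by
  intro n a hf
  have e : ∑ k ∈ Finset.range (n + 1), C (a k * 2 ^ k) * (X:ℝ[X]) ^ k
      = (∑ k ∈ Finset.range (n + 1), C (a k) * (X:ℝ[X]) ^ k).comp (C 2 * X) := by
    rw [Polynomial.sum_comp]
    apply Finset.sum_congr rfl
    intro k _
    simp only [mul_comp, C_comp, pow_comp, X_comp, mul_pow, C_mul, C_pow]
    ring
  simp only
  rw [e]
  rcases hf with h0 | h
  · left; rw [h0]; simp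
  · right
    intro z hz
    rw [aeval_comp] at hz
    have := h _ hz
    simpa using this

lemma two_pow_not (j : ℕ) (hj : 1 ≤ j) : (fun k => (2:ℝ) ^ k) ∉ MSset (P j) := by
  intro hms
  have hP0 : P j 0 = 1 := by unfold P; rw [if_pos (by omega)]; simp
  have hP1 : P j 1 = 1 + X := by
    unfold P; rw [if_pos hj]; simp [Finset.sum_range_succ]
  rcases hj.eq_or_lt with h | h
  · -- j = 1
    have hP2 : P j 2 = X ^ 2 := by unfold P; rw [if_neg (by omega)]
    have h1 := hms 2 (fun k => if k = 0 then -1 else if k = 1 then 2 else 1) (by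
      simp only [Finset.sum_range_succ, Finset.range_zero, Finset.sum_empty, hP0, hP1, hP2]
      norm_num
      right
      intro z hz
      have : (z + 1) ^ 2 = 0 := by
        simp at hz
        linear_combination hz
      have h2 : z + 1 = 0 := by simpa using this
      have h3 : z = -1 := by linear_combination h2
      rw [h3]; simp)
    simp only [Finset.sum_range_succ, Finset.range_zero, Finset.sum_empty, hP0, hP1, hP2] at h1
    norm_num at h1
    have hs : (Real.sqrt 2 : ℂ) ^ 2 = 2 := by
      rw [← Complex.ofReal_pow, Real.sq_sqrt (by norm_num)]; norm_num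
    refine not_rr ((-1 + Real.sqrt 2 * Complex.I) / 2) ?_ ?_ ?_ h1
    · simp only [map_add, map_neg, map_mul, map_one, aeval_X, map_pow, map_ofNat]
      linear_combination (Complex.I ^ 2) * hs + 2 * Complex.I_sq
    · simp
    · intro h0
      have := congrArg (fun p => eval 0 p) h0
      simp at this
      norm_num at this
  · have hP2 : P j 2 = 1 + X + X ^ 2 := by
      unfold P; rw [if_pos (by omega)]; simp [Finset.sum_range_succ]
    have h1 := hms 2 (fun k => if k = 0 then 0 else if k = 1 then -1 else 1) (by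
      simp only [Finset.sum_range_succ, Finset.range_zero, Finset.sum_empty, hP0, hP1, hP2]
      norm_num
      right
      intro z hz
      simp at hz
      have h2 : z ^ 2 = 0 := by linear_combination hz
      rw [eq_zero_of_pow_eq_zero h2]; simp)
    simp only [Finset.sum_range_succ, Finset.range_zero, Finset.sum_empty, hP0, hP1, hP2] at h1
    norm_num at h1
    have hs : (Real.sqrt 7 : ℂ) ^ 2 = 7 := by
      rw [← Complex.ofReal_pow, Real.sq_sqrt (by norm_num)]; norm_num
    refine not_rr ((-1 + Real.sqrt 7 * Complex.I) / 4) ?_ ?_ ?_ h1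
    · simp
      linear_combination (Complex.I ^ 2 / 4) * hs + (7 / 4) * Complex.I_sq
    · simp
    · intro h0
      have := congrArg (fun p => eval 0 p) h0
      simp at this
      norm_num at this

/-- The sets `(P_j)_MS`, `j ≥ 1`, are pairwise different, and their union is a proper subset of the
set of classical multiplier sequences. -/
theorem result :
    (∀ j, SimpleSet (P j)) ∧
    (∀ i j : ℕ, 1 ≤ i → 1 ≤ j → i ≠ j → MSset (P i) ≠ MSset (P j)) ∧
    (⋃ j ∈ Set.Ici 1, MSset (P j)) ⊂ MSset (fun k => X ^ k) := by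
  refine ⟨P_simple, ?_, ?_⟩
  · intro i j hi hj hij heq
    rcases lt_or_gt_of_ne hij with h | h
    · exact not_mem i j hi h (heq ▸ mem_own i)
    · exact not_mem j i hj h (heq ▸ mem_own j)
  · rw [Set.ssubset_iff_of_subset]
    · refine ⟨_, two_pow_classical, ?_⟩
      intro h
      simp only [Set.mem_iUnion] at h
      obtain ⟨j, hj, h⟩ := h
      exact two_pow_not j hj h
    · intro γ h
      simp only [Set.mem_iUnion] at h
      obtain ⟨j, _, h⟩ := h
      exact MS_subset_classical (P j) (P_simple j) γ h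

end Pool.Agent.Results.MP_5f9057_an.DistinctFamily
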